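import Pool.Agent.H83W.FixDiv

/-!
# The abc inequality over a number field at all points for which norms of polynomial values have a divisor in a short window

Let `K` be a number field of degree `d`, `x ∈ K`, `x ≠ 0, 1`, `P = (x : 1 - x : -1)`, `H = exp h(P)`. We consider the norms of
the numbers `F (x / (1 - x))` for the polynomials `F` of a finite set `J ⊂ ℤ[T]`. Let `0 < t ≤ 3`, `A > 0` and `θ < 1`. For all
`α > 0` outside a set of Hausdorff dimension at most `A d F(t) / (1 - θ)` (`F` the piecewise linear function of the starting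
file `ApproximationsOverK`, `F(1) = 20 / 37`, `F(t) = 4 t / 7` for small `t`) ALL `x ∈ K` with `H ≤ m ^ A` for which the product
of the numerators and the denominators of these norms is divisible by an integer `m` with `|m - α b ^ k| ≤ κ (α b ^ k) ^ θ` for
one of the large `k` satisfy `rad_T(P) > t h(P) + c`; one set of `α` serves all `J`, `T`, `κ`, `c`. The case `t = 1` is the abc
inequality with exponent `1` (and any constant). The same holds for starshaped functions `f_k(α)` instead of `α b ^ k`.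
-/

set_option autoImplicit false

namespace Pool.Agent.H83Out.NormDivisorsInWindows

open NumberField IsDedekindDomain Filter Topology Polynomial
open ApproximationsOverK (height rad pt F)
open Pool.Agent.Results.MP_6e34ef_nt.StarshapedAbc (Starshaped ExpLe)

/-- The norm of the number `G (x / (1 - x))`. -/
noncomputable def normAt {K : Type} [Field K] [NumberField K] (x : K) (G : ℤ[X]) : ℚ :=
  Algebra.norm ℚ (Polynomial.aeval (x / (1 - x)) G)

/-- The inequality `rad_T(P) > t h(P) + c` for all `x ∈ K` with `H ≤ m ^ A` for which the norms of the numbers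
`G (x / (1 - x))`, `G ∈ J`, are not zero and `m` divides the product of their numerators and denominators. -/
def Holds {K : Type} [Field K] [NumberField K] (T : Set (HeightOneSpectrum (𝓞 K))) (t c A : ℝ) (J : Finset ℤ[X])
    (m : ℕ) : Prop :=
  ∀ x : K, x ≠ 0 → x ≠ 1 → (∀ G ∈ J, normAt x G ≠ 0) →
    m ∣ ∏ G ∈ J, (normAt x G).num.natAbs * (normAt x G).den →
    Real.exp (height (pt x)) ≤ (m : ℝ) ^ A → t * height (pt x) + c < rad T (pt x)

/-- **Theorem.** Let `f` be starshaped functions on `(a, ∞)` (`f_k > 0` and `f_k(u) / u` nondecreasing, `a ≥ 0`) such that for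
all `u > a` the exponent of convergence of the sequence `f_k(u)` is at most `τ ≥ 0`, and let `θ < 1`.

(1) For every number field `K` of degree `d`, `0 < t ≤ 3` and `A > 0` there is a set `E` of Hausdorff dimension at most
`(A d F(t) + τ) / (1 - θ)` such that for each `α > a` outside `E`, all finite sets `T` of primes of `K`, all finite
`J ⊂ ℤ[X]` and all `c`, `κ`, for all but finitely many `k` and all integers `m` with `|m - f_k(α)| ≤ κ f_k(α) ^ θ`: ALL
`x ∈ K`, `x ≠ 0, 1`, with `H ≤ m ^ A` for which the norms of the `G (x / (1 - x))`, `G ∈ J`, are not zero and `m` divides the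
product of their numerators and denominators satisfy `rad_T(P) > t h(P) + c`.

(2) The functions `v_k u` are starshaped on `(0, ∞)`, of exponent `τ` if `v > 0` has exponent of convergence at most `τ`; the
functions `u ^ (v_k)`, `v_k ≥ 1`, are starshaped on `(1, ∞)`, of exponent `0` if the sums of `exp (-s v_k)` converge for
`s > 0`. -/
theorem result :
    (∀ (a : ℝ) (f : ℕ → ℝ → ℝ) (τ θ : ℝ), Starshaped a f → 0 ≤ τ → ExpLe a f τ → θ < 1 →
      ∀ (K : Type) [Field K] [NumberField K] (t A : ℝ), 0 < t → t ≤ 3 → 0 < A →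
        ∃ E : Set ℝ, dimH E ≤ ENNReal.ofReal ((A * ((Module.finrank ℚ K : ℝ) * F t) + τ) / (1 - θ)) ∧
          ∀ α : ℝ, a < α → α ∉ E → ∀ T : Set (HeightOneSpectrum (𝓞 K)), T.Finite → ∀ (J : Finset ℤ[X]) (c κ : ℝ),
            ∃ k₀ : ℕ, ∀ k : ℕ, k₀ ≤ k → ∀ m : ℕ, |(m : ℝ) - f k α| ≤ κ * (f k α) ^ θ → Holds T t c A J m) ∧
    (∀ (v : ℕ → ℝ) (τ : ℝ), (∀ n, 0 < v n) → (∀ t : ℝ, τ < t → Summable (fun n : ℕ => (v n) ^ (-t))) →
      Starshaped 0 (fun n x => v n * x) ∧ ExpLe 0 (fun n x => v n * x) τ) ∧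
    (∀ v : ℕ → ℝ, (∀ n, 1 ≤ v n) → (∀ t : ℝ, 0 < t → Summable fun n : ℕ => Real.exp (-(t * v n))) →
      Starshaped 1 (fun n x => x ^ (v n)) ∧ ExpLe 1 (fun n x => x ^ (v n)) 0) := by
  refine ⟨fun a f τ θ hv hτ hE hθ K _ _ t A ht0 ht3 hA => ?_, Pool.Agent.R482.ST.ex_mul, Pool.Agent.R482.ST.ex_pow⟩
  haveI hcp : Countable (HeightOneSpectrum (𝓞 K)) := Pool.Agent.R425.MK.countable_primes
  haveI : Countable ℤ[X] := Cardinal.mk_le_aleph0_iff.1 (Polynomial.cardinalMk_le_max.trans (by simp))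
  have hall : ∀ q : Finset (HeightOneSpectrum (𝓞 K)) × Finset ℤ[X] × ℕ, ∃ E : Set ℝ,
      dimH E ≤ ENNReal.ofReal ((A * ((Module.finrank ℚ K : ℝ) * F t) + τ) / (1 - θ)) ∧
      ∀ α : ℝ, a < α → α ∉ E → ∀ κ : ℝ, ∃ n0 : ℕ, ∀ k : ℕ, n0 ≤ k → ∀ m : ℕ,
        |(m : ℝ) - f k α| ≤ κ * (f k α) ^ θ → 0 < m ∧
          m ∉ Pool.Agent.H83W.FD.Bad (K := K) (q.1 : Set (HeightOneSpectrum (𝓞 K))) t (q.2.2 : ℝ) A q.2.1 := fun q =>
    Pool.Agent.R482.ST.star_nat
      (Pool.Agent.H83W.FD.Bad (K := K) (q.1 : Set (HeightOneSpectrum (𝓞 K))) t (q.2.2 : ℝ) A q.2.1) hv.1 hv.2 hE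
      (mul_nonneg hA.le (mul_nonneg (Nat.cast_nonneg _) (ApproximationsOverK.F_nonneg ht0))) hτ hθ
      (Pool.Agent.H83W.FD.thin (q.1 : Set (HeightOneSpectrum (𝓞 K))) (Finset.finite_toSet q.1) (q.2.2 : ℝ) ht0 ht3 hA q.2.1)
  choose G hG1 hG2 using hall
  refine ⟨⋃ q, G q, ?_, fun α hα hαE T hT J c κ => ?_⟩
  · rw [dimH_iUnion]
    exact iSup_le hG1
  · obtain ⟨i, hi⟩ := exists_nat_ge c
    obtain ⟨k₀, hk⟩ := hG2 (hT.toFinset, J, i) α hα (fun h => hαE (Set.mem_iUnion.2 ⟨(hT.toFinset, J, i), h⟩)) κ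
    refine ⟨k₀, fun k hk1 m hm x hx0 hx1 hne hdvd hht => ?_⟩
    by_contra hcon
    push Not at hcon
    refine (hk k hk1 m hm).2 ⟨x, ⟨hx0, hx1, ?_⟩, hht, hne, hdvd⟩
    rw [Set.Finite.coe_toFinset]
    linarith

end Pool.Agent.H83Out.NormDivisorsInWindows
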